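import Pool.Agent.E8helper8.EC.Stm

/-!
# Project EC: MAIN
-/

set_option autoImplicit false
set_option linter.unusedVariables false

open CategoryTheory Simplicial Opposite unitInterval

namespace Pool.Agent.E8helper8.EC

theorem rmap_comp {X Y Z : SSet.{0}} (f : X ⟶ Y) (g : Y ⟶ Z) (p : Rl X) :
    rmap (f ≫ g) p = rmap g (rmap f p) := by
  unfold rmap
  rw [Functor.map_comp]
  rfl

theorem rmap_id (X : SSet.{0}) (p : Rl X) : rmap (𝟙 X) p = p := by
  unfold rmap
  rw [CategoryTheory.Functor.map_id]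
  rfl

variable {G : Type} (u : G → G → ℤ)

theorem sh_sh (k l : ℤ) : sh u k ≫ sh u l = sh u (k + l) := by
  ext n v
  apply Subtype.ext
  funext i
  exact Prod.ext rfl (add_assoc _ _ _)

theorem sh_zero : sh u 0 = 𝟙 _ := by
  ext n v
  apply Subtype.ext
  funext i
  exact Prod.ext rfl (add_zero _)

theorem sh_prj (k : ℤ) : sh u k ≫ prj u = prj u := rfl

theorem sh_sh' (k l : ℤ) (p : Rl (Cv u Set.univ)) :
    rmap (sh u l) (rmap (sh u k) p) = rmap (sh u (k + l)) p := by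
  rw [← rmap_comp, sh_sh]

theorem sh_zero' (p : Rl (Cv u Set.univ)) : rmap (sh u 0) p = p := by
  rw [sh_zero, rmap_id]

theorem sh_prj' (k : ℤ) (p : Rl (Cv u Set.univ)) :
    rmap (prj u) (rmap (sh u k) p) = rmap (prj u) p := by
  rw [← rmap_comp, sh_prj]

/-- powers of the shift along the line -/
theorem g_int (g : ℝ → Rl (Cv u Set.univ)) (hg : ∀ t, g (t + 1) = rmap (sh u 1) (g t)) (k : ℤ)
    (t : ℝ) : g (t + k) = rmap (sh u k) (g t) := by
  induction k using Int.induction_on with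
  | zero => rw [Int.cast_zero, add_zero, sh_zero']
  | succ k ih =>
    have h := hg (t + (k : ℤ))
    rw [ih, sh_sh'] at h
    rw [← h]
    push_cast
    ring_nf
  | pred k ih =>
    have h := hg (t + ((-(k : ℤ) - 1 : ℤ) : ℝ))
    have h2 : t + ((-(k : ℤ) - 1 : ℤ) : ℝ) + 1 = t + ((-(k : ℤ) : ℤ) : ℝ) := by
      push_cast
      ring
    rw [h2, ih] at h
    have h3 := congrArg (rmap (sh u (-1))) h
    rw [sh_sh', sh_sh'] at h3
    rw [show (1 : ℤ) + -1 = 0 by norm_num, sh_zero'] at h3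
    rw [← h3, sub_eq_add_neg]

/-- continuous maps out of the circle -/
theorem circle_lift {Y : Type} [TopologicalSpace Y] (g : C(ℝ, Y)) (hg : ∀ t, g (t + 1) = g t) :
    ∃ h : C(AddCircle (1 : ℝ), Y), ∀ t : ℝ, h (t : AddCircle (1 : ℝ)) = g t := by
  have hp : Function.Periodic g 1 := hg
  refine ⟨⟨hp.lift, ?_⟩, fun t => hp.lift_coe t⟩
  exact continuous_coinduced_dom.2 g.continuous

theorem sum_dl {n : ℕ} (x : Dl n) : ∑ i, x i = 1 := stdSimplex.sum_eq_one x

theorem t_MAIN : S_MAIN := by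
  intro hR hTW hB hI hS hGl hE hFF hGG G u hG hu hN
  obtain ⟨⟨F, hF⟩, ⟨f, hf⟩⟩ := hFF hR G u
  obtain ⟨g0, hg0, hft⟩ := hGG hR G u hG hu hN
  obtain ⟨hR1, hR2, hR3, hR4⟩ := id hR
  -- equivariance of `F`
  have hFs : ∀ (k : ℤ) (p : Rl (Cv u Set.univ)), F (rmap (sh u k) p) = F p + k := by
    intro k p
    obtain ⟨n, v, x, rfl⟩ := hR3 _ p
    rw [hR4, hF, hF]
    have h1 : ∀ i, x i * ((((sh u k).app (op ⦋n⦌) v).1 i).2 : ℝ) =
        x i * ((v.1 i).2 : ℝ) + x i * k := by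
      intro i
      have : (((sh u k).app (op ⦋n⦌) v).1 i).2 = (v.1 i).2 + k := rfl
      rw [this]
      push_cast
      ring
    rw [Finset.sum_congr rfl fun i _ => h1 i, Finset.sum_add_distrib, ← Finset.sum_mul, sum_dl,
      one_mul]
  have hfp : ∀ p : Rl (Cv u Set.univ), f (rmap (prj u) p) = (F p : AddCircle (1 : ℝ)) := by
    intro p
    obtain ⟨n, v, x, rfl⟩ := hR3 _ p
    rw [hR4, hf, hF]
    have h1 : ∀ i, x i * (u (((prj u).app (op ⦋n⦌) v).1 0) (((prj u).app (op ⦋n⦌) v).1 i) : ℝ) =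
        x i * ((v.1 i).2 : ℝ) - x i * ((v.1 0).2 : ℝ) := by
      intro i
      have : u (((prj u).app (op ⦋n⦌) v).1 0) (((prj u).app (op ⦋n⦌) v).1 i) =
        (v.1 i).2 - (v.1 0).2 := v.2.1 0 i
      rw [this]
      push_cast
      ring
    rw [Finset.sum_congr rfl fun i _ => h1 i, Finset.sum_sub_distrib, ← Finset.sum_mul, sum_dl,
      one_mul, AddCircle.coe_sub]
    have h2 : (((v.1 0).2 : ℝ) : AddCircle (1 : ℝ)) = 0 := by
      rw [AddCircle.coe_eq_zero_iff]
      exact ⟨(v.1 0).2, by simp⟩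
    rw [h2, sub_zero]
  have hgk := g_int u g0 hg0
  -- the map from the circle
  obtain ⟨g, hg⟩ := circle_lift ((rmap (prj u)).comp g0) (fun t => by
    rw [ContinuousMap.comp_apply, ContinuousMap.comp_apply, hg0, sh_prj'])
  -- the homotopy on `E(u)`
  have hlft : ∀ n m (w : (Eu u).obj (op ⦋n⦌)) (α : ⦋m⦌ ⟶ ⦋n⦌) (x : Dl m),
      rmap (sh u (u (w.1 0) (w.1 (α.toOrderHom 0))))
        (ch _ m (lft u m ((Eu u).map α.op w)) x) = ch _ n (lft u n w) (push α x) := by
    intro n m w α x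
    rw [hR4, ← hR1]
    congr 1
    congr 1
    apply Subtype.ext
    funext i
    refine Prod.ext rfl ?_
    have := w.2 0 (α.toOrderHom 0) (α.toOrderHom i)
    change u (w.1 (α.toOrderHom 0)) (w.1 (α.toOrderHom i)) + u (w.1 0) (w.1 (α.toOrderHom 0)) =
      u (w.1 0) (w.1 (α.toOrderHom i))
    omega
  obtain ⟨h, hnat, h0, h1⟩ := hTW hR hB hI hS hGl hE G u hN
    (fun n w => g0.comp (F.comp (ch _ n (lft u n w))))
    (fun n w => hft _ (F.comp (ch _ n (lft u n w))))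
    (fun n m w α x => by
      simp only [ContinuousMap.comp_apply]
      rw [← hgk, ← hFs, hlft])
  obtain ⟨H, hH⟩ := hR2 (Eu u) C(I, Rl (Eu u))
    (fun n w => ((rmap (prj u)).comp (h n w)).curry)
    (fun n m α w x => by
      ext t
      simp only [ContinuousMap.curry_apply, ContinuousMap.comp_apply]
      rw [← hnat, sh_prj'])
  have hprj : ∀ n (w : (Eu u).obj (op ⦋n⦌)) (x : Dl n),
      rmap (prj u) (ch _ n (lft u n w) x) = ch _ n w x := by
    intro n w x
    rw [hR4]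
    rfl
  -- the homotopy on the circle
  have hper : ∀ t : ℝ, F (g0 (t + 1)) = F (g0 t) + 1 := by
    intro t
    rw [hg0, hFs]
    push_cast
    rfl
  obtain ⟨K0, hK0⟩ : ∃ K0 : C(ℝ × I, AddCircle (1 : ℝ)), ∀ (t : ℝ) (s : I),
      K0 (t, s) = (((1 - (s : ℝ)) * F (g0 t) + s * t : ℝ) : AddCircle (1 : ℝ)) := by
    refine ⟨⟨fun p => (((1 - (p.2 : ℝ)) * F (g0 p.1) + p.2 * p.1 : ℝ) : AddCircle (1 : ℝ)), ?_⟩,
      fun t s => rfl⟩
    refine (AddCircle.continuous_mk' 1).comp ?_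
    fun_prop
  obtain ⟨K, hK⟩ := circle_lift K0.curry (fun t => by
    ext s
    rw [ContinuousMap.curry_apply, ContinuousMap.curry_apply, hK0, hK0, hper, ← sub_eq_zero, ← AddCircle.coe_sub]
    rw [show (1 - (s : ℝ)) * (F (g0 t) + 1) + s * (t + 1) - ((1 - (s : ℝ)) * F (g0 t) + s * t) = 1
      by ring]
    exact AddCircle.coe_period 1)
  refine ⟨⟨f, g, ⟨⟨⟨fun p => H p.2 p.1, ?_⟩, ?_, ?_⟩⟩, ⟨⟨⟨fun p => K p.2 p.1, ?_⟩, ?_, ?_⟩⟩⟩⟩
  · fun_prop
  · intro p
    obtain ⟨n, w, x, rfl⟩ := hR3 _ p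
    simp only [ContinuousMap.comp_apply]
    rw [hH]
    simp only [ContinuousMap.curry_apply, ContinuousMap.comp_apply]
    rw [h0, ← hprj, hfp, hg]
    simp only [ContinuousMap.comp_apply]
  · intro p
    obtain ⟨n, w, x, rfl⟩ := hR3 _ p
    simp only [ContinuousMap.id_apply]
    rw [hH]
    simp only [ContinuousMap.curry_apply, ContinuousMap.comp_apply]
    rw [h1, hprj]
  · fun_prop
  · intro θ
    obtain ⟨t, rfl⟩ := QuotientAddGroup.mk_surjective θ
    simp only [ContinuousMap.comp_apply]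
    rw [show (QuotientAddGroup.mk t : AddCircle (1 : ℝ)) = ((t : ℝ) : AddCircle (1 : ℝ)) from rfl,
      hK, hg]
    rw [ContinuousMap.curry_apply, hK0, ContinuousMap.comp_apply, hfp]
    congr 1
    simp
  · intro θ
    obtain ⟨t, rfl⟩ := QuotientAddGroup.mk_surjective θ
    simp only [ContinuousMap.id_apply]
    rw [show (QuotientAddGroup.mk t : AddCircle (1 : ℝ)) = ((t : ℝ) : AddCircle (1 : ℝ)) from rfl,
      hK]
    rw [ContinuousMap.curry_apply, hK0]
    congr 1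
    simp

end Pool.Agent.E8helper8.EC
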