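import Pool.Agent.E8helper8.EC.Stm

/-!
# Project EC: NULL
-/

set_option autoImplicit false
set_option linter.unusedVariables false

open CategoryTheory Simplicial Opposite unitInterval

namespace Pool.Agent.E8helper8.EC

theorem pr_single (n : ℕ) (q : ℕ →₀ ℤ) : pr (Finsupp.single n 1) q = q n := by
  unfold pr
  rw [Finsupp.sum_single_index] <;> ring

theorem pr_zero_right (p : ℕ →₀ ℤ) : pr p 0 = 0 := by
  have := pr_add_right p 0 0
  rw [add_zero] at this
  omega

theorem pr_zero_left (p : ℕ →₀ ℤ) : pr 0 p = 0 := by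
  have := pr_add_left 0 0 p
  rw [add_zero] at this
  omega

theorem pr_single_right (p : ℕ →₀ ℤ) (n : ℕ) (x : ℤ) : pr p (Finsupp.single n x) = p n * x := by
  unfold pr
  rw [Finsupp.sum, Finset.sum_eq_single n]
  · rw [Finsupp.single_eq_same]
  · intro i _ hi
    rw [Finsupp.single_eq_of_ne hi, mul_zero]
  · intro h
    rw [Finsupp.notMem_support_iff.1 h, zero_mul]

theorem pr_sum_right {ι : Type} (p : ℕ →₀ ℤ) (s : Finset ι) (f : ι → ℕ →₀ ℤ) :
    pr p (∑ i ∈ s, f i) = ∑ i ∈ s, pr p (f i) := by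
  classical
  induction s using Finset.induction_on with
  | empty => rw [Finset.sum_empty, Finset.sum_empty, pr_zero_right]
  | insert a s ha ih => rw [Finset.sum_insert ha, Finset.sum_insert ha, pr_add_right, ih]

theorem uH_symm (x y : Heis) : uH y x = -uH x y := by
  unfold uH
  rw [om_symm x.a y.a]
  ring

/-- membership in the class of tuples from a pairwise condition, for appended tuples -/
theorem append_mem {F F' : Set (Heis × ℤ)} (φ ψ : Heis × ℤ → Heis × ℤ)
    (h11 : ∀ v ∈ F, ∀ w ∈ F, uH v.1 w.1 = w.2 - v.2 →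
      uH (φ v).1 (φ w).1 = (φ w).2 - (φ v).2)
    (h12 : ∀ v ∈ F, ∀ w ∈ F, uH v.1 w.1 = w.2 - v.2 →
      uH (φ v).1 (ψ w).1 = (ψ w).2 - (φ v).2)
    (h22 : ∀ v ∈ F, ∀ w ∈ F, uH v.1 w.1 = w.2 - v.2 →
      uH (ψ v).1 (ψ w).1 = (ψ w).2 - (ψ v).2)
    (h1 : ∀ v ∈ F, φ v ∈ F') (h2 : ∀ v ∈ F, ψ v ∈ F') (n : ℕ) (v : Fin (n + 1) → Heis × ℤ)
    (hv : (covClass uH F).mem n v) :
    (covClass uH F').mem (n + 1 + n)
      (Fin.append (φ ∘ v) (ψ ∘ v) : Fin (n + 1 + (n + 1)) → Heis × ℤ) := by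
  have key : (∀ i j : Fin (n + 1 + (n + 1)),
      uH (Fin.append (φ ∘ v) (ψ ∘ v) i).1 (Fin.append (φ ∘ v) (ψ ∘ v) j).1 =
        (Fin.append (φ ∘ v) (ψ ∘ v) j).2 - (Fin.append (φ ∘ v) (ψ ∘ v) i).2) ∧
      ∀ i : Fin (n + 1 + (n + 1)), Fin.append (φ ∘ v) (ψ ∘ v) i ∈ F' := by
    refine ⟨fun i j => ?_, fun i => ?_⟩
    · induction i using Fin.addCases with
      | left i =>
        induction j using Fin.addCases with
        | left j =>
          simp only [Fin.append_left, Function.comp]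
          exact h11 _ (hv.2 i) _ (hv.2 j) (hv.1 i j)
        | right j =>
          simp only [Fin.append_left, Fin.append_right, Function.comp]
          exact h12 _ (hv.2 i) _ (hv.2 j) (hv.1 i j)
      | right i =>
        induction j using Fin.addCases with
        | left j =>
          simp only [Fin.append_left, Fin.append_right, Function.comp]
          have := h12 _ (hv.2 j) _ (hv.2 i) (hv.1 j i)
          rw [uH_symm (φ (v j)).1 (ψ (v i)).1, this]
          ring
        | right j =>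
          simp only [Fin.append_right, Function.comp]
          exact h22 _ (hv.2 i) _ (hv.2 j) (hv.1 i j)
    · induction i using Fin.addCases with
      | left i =>
        simp only [Fin.append_left, Function.comp]
        exact h1 _ (hv.2 i)
      | right i =>
        simp only [Fin.append_right, Function.comp]
        exact h2 _ (hv.2 i)
  exact key

theorem vmap_const (hR : S_REAL) (F F' : Set (Heis × ℤ)) (w : Heis × ℤ)
    (h : ∀ n v, (covClass uH F).mem n v → (covClass uH F').mem n ((fun _ => w) ∘ v))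
    (hw : (covClass uH F').mem 0 (fun _ => w)) :
    ∃ y, rmap (vmap (covClass uH F) (covClass uH F') (fun _ => w) h) =
      ContinuousMap.const _ y := by
  obtain ⟨hR1, hR2, hR3, hR4⟩ := hR
  refine ⟨ch (Cv uH F') 0 ⟨fun _ => w, hw⟩ ⟨fun _ => 1, by simp [stdSimplex]⟩, ?_⟩
  ext p
  obtain ⟨n, v, x, rfl⟩ := hR3 _ p
  rw [hR4, ContinuousMap.const_apply]
  have h1 := hR1 (Cv uH F') 0 n (SimplexCategory.const ⦋n⦌ ⦋0⦌ 0) ⟨fun _ => w, hw⟩ x
  refine Eq.trans ?_ (h1.trans ?_)
  · rfl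
  · congr 1
    exact Subsingleton.elim _ _

theorem t_NULL : S_NULL := by
  classical
  intro hR hC F hF
  -- the new coordinates
  obtain ⟨e, he⟩ := Set.countable_iff_exists_injOn.1 hF.countable
  obtain ⟨M, hM⟩ : ∃ M : ℕ, ∀ v ∈ F, ∀ n, M ≤ n → v.1.a.1 n = 0 ∧ v.1.a.2 n = 0 := by
    have h1 : ∀ v : Heis × ℤ, ∃ M : ℕ, ∀ n, M ≤ n → v.1.a.1 n = 0 ∧ v.1.a.2 n = 0 := by
      intro v
      refine ⟨(v.1.a.1.support ∪ v.1.a.2.support).sup id + 1, fun n hn => ?_⟩
      have h2 : n ∉ v.1.a.1.support ∪ v.1.a.2.support := by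
        intro h3
        have := Finset.le_sup (f := id) h3
        simp only [id] at this
        omega
      rw [Finset.mem_union, not_or, Finsupp.notMem_support_iff, Finsupp.notMem_support_iff] at h2
      exact h2
    choose m hm using h1
    refine ⟨∑ v ∈ hF.toFinset, m v, fun v hv n hn => hm v n (le_trans ?_ hn)⟩
    exact Finset.single_le_sum (f := m) (fun _ _ => Nat.zero_le _) (hF.mem_toFinset.2 hv)
  let N : Heis × ℤ → ℕ := fun v => M + e v
  have hN : ∀ v ∈ F, ∀ w : Heis × ℤ, v.1.a.1 (N w) = 0 ∧ v.1.a.2 (N w) = 0 :=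
    fun v hv w => hM v hv _ (Nat.le_add_right _ _)
  have hNi : ∀ v ∈ F, ∀ w ∈ F, N v = N w → v = w := fun v hv w hw h =>
    he hv hw (Nat.add_left_cancel h)
  let E : Heis × ℤ → V := fun v => (Finsupp.single (N v) 1, 0)
  let φ : Heis × ℤ → Heis × ℤ := fun v => (⟨v.1.a + E v, v.1.s⟩, v.2)
  let B : ℕ →₀ ℤ := ∑ v ∈ hF.toFinset, Finsupp.single (N v) (v.2 - v.1.s)
  let w₀ : Heis × ℤ := (⟨(0, B), 0⟩, 0)
  have hB1 : ∀ v ∈ F, B (N v) = v.2 - v.1.s := by
    intro v hv
    simp only [B]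
    rw [Finsupp.finsetSum_apply, Finset.sum_eq_single v]
    · rw [Finsupp.single_eq_same]
    · intro w hw hne
      rw [Finsupp.single_eq_of_ne]
      intro h
      exact hne (hNi v hv w (hF.mem_toFinset.1 hw) h).symm
    · intro h
      exact absurd (hF.mem_toFinset.2 hv) h
  have hB2 : ∀ v ∈ F, pr v.1.a.1 B = 0 := by
    intro v hv
    simp only [B]
    rw [pr_sum_right]
    refine Finset.sum_eq_zero fun w _ => ?_
    rw [pr_single_right, (hN v hv w).1, zero_mul]
  have o1 : ∀ (v : Heis × ℤ), ∀ w ∈ F, om (E v) w.1.a = 0 := by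
    intro v w hw
    simp only [om, E]
    rw [pr_single, pr_zero_right, (hN w hw v).2, sub_zero]
  have o2 : ∀ v ∈ F, ∀ (w : Heis × ℤ), om v.1.a (E w) = 0 := by
    intro v hv w
    rw [om_symm (E w), o1 w v hv, neg_zero]
  have o3 : ∀ v w : Heis × ℤ, om (E v) (E w) = 0 := by
    intro v w
    simp only [om, E]
    rw [pr_zero_right, pr_zero_right, sub_zero]
  have a1 : ∀ v ∈ F, ∀ w ∈ F, uH v.1 (φ w).1 = uH v.1 w.1 := by
    intro v hv w hw
    simp only [uH, φ]
    rw [om_add_right, o2 v hv w, add_zero]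
  have a3 : ∀ v ∈ F, ∀ w ∈ F, uH (φ v).1 (φ w).1 = uH v.1 w.1 := by
    intro v hv w hw
    simp only [uH, φ]
    rw [om_add_right, om_add_left, om_add_left, o1 v w hw, o2 v hv w, o3]
    ring
  have a4 : ∀ v ∈ F, uH (φ v).1 w₀.1 = -v.2 := by
    intro v hv
    simp only [uH, φ, w₀]
    rw [om_add_left]
    simp only [om, E]
    rw [hB2 v hv, pr_single, hB1 v hv, pr_zero_left, pr_zero_left]
    ring
  let F' : Set (Heis × ℤ) := F ∪ φ '' F ∪ {w₀}
  have hFF' : F ⊆ F' := fun v hv => Or.inl (Or.inl hv)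
  have hφ' : ∀ v ∈ F, φ v ∈ F' := fun v hv => Or.inl (Or.inr ⟨v, hv, rfl⟩)
  have hw' : w₀ ∈ F' := Or.inr rfl
  have hwm : (covClass uH F').mem 0 (fun _ => w₀) := by
    refine ⟨fun i j => ?_, fun i => hw'⟩
    simp only [uH, om_self]
    ring
  have m1 : ∀ n v, (covClass uH F).mem n v → (covClass uH F').mem n (id ∘ v) :=
    fun n v hv => ⟨hv.1, fun i => hFF' (hv.2 i)⟩
  have m2 : ∀ n v, (covClass uH F).mem n v → (covClass uH F').mem n (φ ∘ v) :=
    fun n v hv => ⟨fun i j => by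
      rw [Function.comp, Function.comp, a3 _ (hv.2 i) _ (hv.2 j)]
      exact hv.1 i j, fun i => hφ' _ (hv.2 i)⟩
  have m3 : ∀ n v, (covClass uH F).mem n v → (covClass uH F').mem n ((fun _ => w₀) ∘ v) :=
    fun n v hv => (covClass uH F').comp 0 n (fun _ => w₀) (fun _ => 0) hwm
  have c1 := hC hR _ _ (covClass uH F) (covClass uH F') id φ m1 m2
    (append_mem id φ (fun v hv w hw h => h) (fun v hv w hw h => by
      rw [id, a1 v hv w hw]
      exact h) (fun v hv w hw h => by
      rw [a3 v hv w hw]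
      exact h) hFF' hφ')
  have c2 := hC hR _ _ (covClass uH F) (covClass uH F') φ (fun _ => w₀) m2 m3
    (append_mem φ (fun _ => w₀) (fun v hv w hw h => by
      rw [a3 v hv w hw]
      exact h) (fun v hv w hw h => by
      rw [a4 v hv]
      exact (zero_sub _).symm) (fun v hv w hw h => by
      simp only [uH, om_self]
      ring) hφ' (fun v hv => hw'))
  obtain ⟨y, hy⟩ := vmap_const hR F F' w₀ m3 hwm
  refine ⟨F', ?_, hFF', y, ?_⟩
  · exact ((hF.union (hF.image φ)).union (Set.finite_singleton _))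
  · rw [← hy]
    exact c1.trans c2

end Pool.Agent.E8helper8.EC
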