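import Mathlib

/-!
# Project EC: MP_510dd6_gt, a group `G` with infinite `G / Z(G)` and `E_com G ≃ S¹`

`G` is the integral Heisenberg group of infinite rank: pairs `(a, s)`, `a ∈ V = ℤ^(∞) × ℤ^(∞)`,
`s ∈ ℤ`, `(a, s) (b, t) = (a + b, s + t + ω(a, b))`, `ω` the standard symplectic form.
With `u ((a, s), (b, t)) = t - s - ω(a, b)` a tuple is a simplex of `E_com G` iff
`u (g i) (g j) + u (g j) (g k) = u (g i) (g k)` for all `i, j, k`. The `ℤ`-cover has the vertices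
`(g, m)`, and a tuple is a simplex iff `u (g i) (g j) = m j - m i`. Finite subcomplexes of the cover
are null-homotopic in finite subcomplexes (two contiguity moves); by induction over the skeleta this
gives a `ℤ`-equivariant homotopy from `g̃ f̃` to the identity.
-/

set_option autoImplicit false
set_option linter.unusedVariables false

open CategoryTheory Simplicial Opposite unitInterval

namespace Pool.Agent.E8helper8.EC

/-! ### simplicial sets whose simplices are tuples -/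

/-- a class of tuples of elements of `P`, closed under all reindexings -/
structure TupleClass (P : Type) where
  /-- the tuples -/
  mem : ∀ n : ℕ, (Fin (n + 1) → P) → Prop
  /-- closed under reindexing -/
  comp : ∀ (n m : ℕ) (v : Fin (n + 1) → P) (α : Fin (m + 1) → Fin (n + 1)),
    mem n v → mem m (v ∘ α)

/-- the simplicial set whose `n`-simplices are the tuples `(v 0, ..., v n)` of the class -/
def TupleClass.sset {P : Type} (C : TupleClass P) : SSet.{0} where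
  obj n := {v : Fin (n.unop.len + 1) → P // C.mem n.unop.len v}
  map f := ↾fun v => ⟨v.1 ∘ f.unop.toOrderHom, C.comp _ _ _ _ v.2⟩

/-- the simplicial map induced by a map of the vertices -/
def vmap {P P' : Type} (C : TupleClass P) (C' : TupleClass P') (φ : P → P')
    (h : ∀ n v, C.mem n v → C'.mem n (φ ∘ v)) : C.sset ⟶ C'.sset where
  app n := ↾fun v => ⟨φ ∘ v.1, h _ _ v.2⟩
  naturality _ _ _ := rfl

/-- the topological simplex -/
abbrev Dl (n : ℕ) : Type := stdSimplex ℝ (Fin (n + 1))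

/-- the map of topological simplices -/
noncomputable def push {m n : ℕ} (α : ⦋m⦌ ⟶ ⦋n⦌) : C(Dl m, Dl n) :=
  ⟨stdSimplex.map α.toOrderHom, by continuity⟩

/-- the geometric realization -/
abbrev Rl (X : SSet.{0}) : Type := (SSet.toTop.obj X : TopCat.{0})

/-- realization of a simplicial map -/
noncomputable def rmap {X Y : SSet.{0}} (f : X ⟶ Y) : C(Rl X, Rl Y) := (SSet.toTop.map f).hom

/-- the characteristic map of a simplex -/
noncomputable def ch (X : SSet.{0}) (n : ℕ) (s : X.obj (op ⦋n⦌)) : C(Dl n, Rl X) :=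
  TopCat.toSSetObjEquiv _ (op ⦋n⦌) ((sSetTopAdj.unit.app X).app (op ⦋n⦌) s)

/-! ### general statements on realizations -/

/-- REAL: basic facts on characteristic maps. -/
def S_REAL : Prop :=
  (∀ (X : SSet.{0}) (n m : ℕ) (α : ⦋m⦌ ⟶ ⦋n⦌) (s : X.obj (op ⦋n⦌)) (x : Dl m),
    ch X m (X.map α.op s) x = ch X n s (push α x)) ∧
  (∀ (X : SSet.{0}) (Y : Type) [TopologicalSpace Y]
    (h : ∀ n : ℕ, X.obj (op ⦋n⦌) → C(Dl n, Y)),
    (∀ (n m : ℕ) (α : ⦋m⦌ ⟶ ⦋n⦌) (s : X.obj (op ⦋n⦌)) (x : Dl m),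
      h m (X.map α.op s) x = h n s (push α x)) →
    ∃ H : C(Rl X, Y), ∀ (n : ℕ) (s : X.obj (op ⦋n⦌)) (x : Dl n), H (ch X n s x) = h n s x) ∧
  (∀ (X : SSet.{0}) (p : Rl X), ∃ (n : ℕ) (s : X.obj (op ⦋n⦌)) (x : Dl n), ch X n s x = p) ∧
  (∀ (X Y : SSet.{0}) (f : X ⟶ Y) (n : ℕ) (s : X.obj (op ⦋n⦌)) (x : Dl n),
    rmap f (ch X n s x) = ch Y n (f.app (op ⦋n⦌) s) x)

/-- BDRY: the realization of the boundary inclusion is injective. Let `z ∈ Δ^n` be the image of
`ch s x`, `s` a simplex of the boundary, and `z i = 0`. Let `δ : [a] → [m]` be the increasing map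
with range `{k | s k ≠ i}` (which contains the support of `x`), `x = push δ x'`. Then `δ ≫ s` misses
`i`, so it factors through `δ_i`, and `ch s x = ch (δ_i) z'` where `push δ_i z' = z`: it depends only
on `z`. -/
def S_BDRY : Prop := S_REAL → ∀ n : ℕ,
  Function.Injective (rmap (SSet.boundary.{0} n).ι)

/-- INJ: realizations of monomorphisms are injective. Trick: let `Y` be `Rl A` with the indiscrete
topology. Every map `∂Δ[n] → Sing Y` extends to `Δ[n]` (by BDRY, any function on `Rl ∂Δ[n]` extends to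
`Rl Δ[n]`), so by `SSet.rlp_monomorphisms` the map `A → Sing Y` adjoint to the identity extends to
`B`; hence `id` factors through `rmap i`. -/
def S_INJ : Prop := S_REAL → S_BDRY → ∀ (A B : SSet.{0}) (i : A ⟶ B), Mono i →
  Function.Injective (rmap i)

/-- SKEL: skeletal induction, from `SSet.rlp_monomorphisms` for `∅ → X` and the simplicial set
`Q n = Σ w, {a : A n // P w a}` over `X`. -/
def S_SKEL : Prop := ∀ (X : SSet.{0}) (A : ℕ → Type) (P : ∀ n, X.obj (op ⦋n⦌) → A n → Prop)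
  (r : ∀ (n m : ℕ), X.obj (op ⦋n⦌) → (⦋m⦌ ⟶ ⦋n⦌) → A n → A m),
  (∀ n w a, r n n w (𝟙 _) a = a) →
  (∀ n m l (w : X.obj (op ⦋n⦌)) (α : ⦋m⦌ ⟶ ⦋n⦌) (β : ⦋l⦌ ⟶ ⦋m⦌) a,
    r n l w (β ≫ α) a = r m l (X.map α.op w) β (r n m w α a)) →
  (∀ n m w (α : ⦋m⦌ ⟶ ⦋n⦌) a, P n w a → P m (X.map α.op w) (r n m w α a)) →
  (∀ n (w : X.obj (op ⦋n⦌))
    (b : ∀ (m : ℕ) (s : ⦋m⦌ ⟶ ⦋n⦌), ¬ Function.Surjective s.toOrderHom → A m),
    (∀ m s hs, P m (X.map s.op w) (b m s hs)) →
    (∀ (m l : ℕ) (s : ⦋m⦌ ⟶ ⦋n⦌) (β : ⦋l⦌ ⟶ ⦋m⦌) (hs : ¬ Function.Surjective s.toOrderHom)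
      (hs' : ¬ Function.Surjective (β ≫ s).toOrderHom),
      r m l (X.map s.op w) β (b m s hs) = b l (β ≫ s) hs') →
    ∃ a : A n, P n w a ∧ ∀ m s hs, r n m w s a = b m s hs) →
  ∃ a : ∀ n, X.obj (op ⦋n⦌) → A n, (∀ n w, P n w (a n w)) ∧
    ∀ n m w (α : ⦋m⦌ ⟶ ⦋n⦌), r n m w α (a n w) = a m (X.map α.op w)

/-- the boundary of `Δ^n × I` -/
def Bd (n : ℕ) : Set (Dl n × I) := {p | (∃ i, p.1 i = 0) ∨ p.2 = 0 ∨ p.2 = 1}

/-- GLUE: gluing continuous maps on the boundary of `Δ^n × I`. Faces: `δ_i`, `i : Fin (n+1)`; every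
non-surjective `s` factors through some `δ_i`. (For `n = 0` there is no non-surjective `s`.) -/
def S_GLUE : Prop := ∀ (n : ℕ) (Y : Type) [TopologicalSpace Y]
  (b : ∀ (m : ℕ) (s : ⦋m⦌ ⟶ ⦋n⦌), ¬ Function.Surjective s.toOrderHom → C(Dl m × I, Y))
  (e0 e1 : C(Dl n, Y)),
  (∀ (m l : ℕ) (s : ⦋m⦌ ⟶ ⦋n⦌) (β : ⦋l⦌ ⟶ ⦋m⦌) (hs : ¬ Function.Surjective s.toOrderHom)
    (hs' : ¬ Function.Surjective (β ≫ s).toOrderHom) (x : Dl l) (t : I),
    b l (β ≫ s) hs' (x, t) = b m s hs (push β x, t)) →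
  (∀ m s hs (x : Dl m), b m s hs (x, 0) = e0 (push s x)) →
  (∀ m s hs (x : Dl m), b m s hs (x, 1) = e1 (push s x)) →
  ∃ c : C(Bd n, Y),
    (∀ m s hs (x : Dl m) (t : I) (hp : (push s x, t) ∈ Bd n), c ⟨(push s x, t), hp⟩ =
      b m s hs (x, t)) ∧
    (∀ (x : Dl n) (hp : (x, (0 : I)) ∈ Bd n), c ⟨(x, 0), hp⟩ = e0 x) ∧
    (∀ (x : Dl n) (hp : (x, (1 : I)) ∈ Bd n), c ⟨(x, 1), hp⟩ = e1 x)

/-- EXT: extension over `Δ^n × I` after a null-homotopic map. `Bd n × I → Δ^n × I`,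
`(p, r) ↦ (1 - r) c + r p`, `c` the centre, is a quotient map (compact to Hausdorff, surjective), and
injective for `r > 0` (gauge function `max (max_i (1 - (n+1) x i)) |2t - 1|`). -/
def S_EXT : Prop := ∀ (n : ℕ) (Y Y' : Type) [TopologicalSpace Y] [TopologicalSpace Y']
  (j : C(Y, Y')), j.Nullhomotopic → ∀ c : C(Bd n, Y),
  ∃ h : C(Dl n × I, Y'), ∀ p : Bd n, h p.1 = j (c p)

/-- CONT: contiguous maps have homotopic realizations:
`(x, t) ↦ ch (append (φ v) (ψ v)) ((1-t) x, t x)`. -/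
def S_CONT : Prop := S_REAL → ∀ (P P' : Type) (C : TupleClass P) (C' : TupleClass P')
  (φ ψ : P → P') (hφ : ∀ n v, C.mem n v → C'.mem n (φ ∘ v))
  (hψ : ∀ n v, C.mem n v → C'.mem n (ψ ∘ v)),
  (∀ n v, C.mem n v → C'.mem (n + 1 + n) (Fin.append (φ ∘ v) (ψ ∘ v) : Fin (n + 1 + (n + 1)) → P')) →
  (rmap (vmap C C' φ hφ)).Homotopic (rmap (vmap C C' ψ hψ))

/-! ### the complexes `E(u)` and their covers -/

variable {G : Type}

/-- tuples with the cocycle condition -/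
def cocClass (u : G → G → ℤ) : TupleClass G where
  mem n g := ∀ i j k : Fin (n + 1), u (g i) (g j) + u (g j) (g k) = u (g i) (g k)
  comp _ _ _ _ h i j k := h _ _ _

/-- tuples of the cover with vertices in `S` -/
def covClass (u : G → G → ℤ) (S : Set (G × ℤ)) : TupleClass (G × ℤ) where
  mem n v := (∀ i j : Fin (n + 1), u (v i).1 (v j).1 = (v j).2 - (v i).2) ∧ ∀ i, v i ∈ S
  comp _ _ _ _ h := ⟨fun i j => h.1 _ _, fun i => h.2 _⟩

/-- the complex `E(u)` -/
abbrev Eu (u : G → G → ℤ) : SSet.{0} := (cocClass u).sset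

/-- the cover, vertices in `S` -/
abbrev Cv (u : G → G → ℤ) (S : Set (G × ℤ)) : SSet.{0} := (covClass u S).sset

/-- inclusion -/
def inc (u : G → G → ℤ) {S S' : Set (G × ℤ)} (h : S ⊆ S') : Cv u S ⟶ Cv u S' :=
  vmap _ _ id fun _ _ hv => ⟨hv.1, fun i => h (hv.2 i)⟩

/-- the shift by `k` -/
def sh (u : G → G → ℤ) (k : ℤ) : Cv u Set.univ ⟶ Cv u Set.univ :=
  vmap _ _ (fun v => (v.1, v.2 + k)) fun _ _ hv =>
    ⟨fun i j => by have := hv.1 i j; simp only [Function.comp]; omega, fun _ => trivial⟩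

/-- the projection -/
def prj (u : G → G → ℤ) : Cv u Set.univ ⟶ Eu u :=
  vmap _ _ Prod.fst fun _ _ hv => fun i j k => by
    have h1 := hv.1 i j
    have h2 := hv.1 j k
    have h3 := hv.1 i k
    simp only [Function.comp]
    omega

/-- the normalized lift of a simplex -/
def lft (u : G → G → ℤ) (n : ℕ) (w : (Eu u).obj (op ⦋n⦌)) : (Cv u Set.univ).obj (op ⦋n⦌) :=
  ⟨fun i => (w.1 i, u (w.1 0) (w.1 i)), fun i j => by
    have := w.2 0 i j
    simp only
    omega, fun _ => trivial⟩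

/-- maps which factor through a finite part of the cover -/
def FT (u : G → G → ℤ) {A : Type} [TopologicalSpace A] (f : C(A, Rl (Cv u Set.univ))) : Prop :=
  ∃ F : Set (G × ℤ), F.Finite ∧ ∃ f' : C(A, Rl (Cv u F)),
    ∀ a, f a = rmap (inc u (Set.subset_univ F)) (f' a)

/-- finite parts of the cover are null-homotopic in finite parts -/
def NULL (u : G → G → ℤ) : Prop := ∀ F : Set (G × ℤ), F.Finite → ∃ F' : Set (G × ℤ), F'.Finite ∧
  ∃ h : F ⊆ F', (rmap (inc u h)).Nullhomotopic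

/-- TW: the twisted homotopy. (SKEL with `A n = C(Dl n × I, Rl (Cv u univ))`,
`r w α a = rmap (sh (-u (w 0) (w (α 0)))) ∘ a ∘ (push α × id)`, `P w a`: `FT a` and the ends.) -/
def S_TW : Prop := S_REAL → S_BDRY → S_INJ → S_SKEL → S_GLUE → S_EXT →
  ∀ (G : Type) (u : G → G → ℤ), NULL u →
  ∀ e0 : ∀ n, (Eu u).obj (op ⦋n⦌) → C(Dl n, Rl (Cv u Set.univ)),
    (∀ n w, FT u (e0 n w)) →
    (∀ n m w (α : ⦋m⦌ ⟶ ⦋n⦌) (x : Dl m),
      rmap (sh u (u (w.1 0) (w.1 (α.toOrderHom 0)))) (e0 m ((Eu u).map α.op w) x) =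
        e0 n w (push α x)) →
  ∃ h : ∀ n, (Eu u).obj (op ⦋n⦌) → C(Dl n × I, Rl (Cv u Set.univ)),
    (∀ n m w (α : ⦋m⦌ ⟶ ⦋n⦌) (x : Dl m) (t : I),
      rmap (sh u (u (w.1 0) (w.1 (α.toOrderHom 0)))) (h m ((Eu u).map α.op w) (x, t)) =
        h n w (push α x, t)) ∧
    (∀ n w x, h n w (x, 0) = e0 n w x) ∧
    (∀ n w x, h n w (x, 1) = ch _ n (lft u n w) x)

/-- FF: the functions `f̃` and `f`. -/
def S_FF : Prop := S_REAL → ∀ (G : Type) (u : G → G → ℤ),
  (∃ F : C(Rl (Cv u Set.univ), ℝ), (∀ (n : ℕ) (v : (Cv u Set.univ).obj (op ⦋n⦌)) (x : Dl n),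
    F (ch _ n v x) = ∑ i, x i * ((v.1 i).2 : ℝ))) ∧
  (∃ f : C(Rl (Eu u), AddCircle (1 : ℝ)), ∀ (n : ℕ) (w : (Eu u).obj (op ⦋n⦌)) (x : Dl n),
    f (ch _ n w x) = ((∑ i, x i * (u (w.1 0) (w.1 i) : ℝ) : ℝ) : AddCircle (1 : ℝ)))

/-- GG: the equivariant line. A path in `Rl (Cv u F)` from the vertex `(g, 0)` to `(g, 1)` exists by
`NULL`; extend it equivariantly. -/
def S_GG : Prop := S_REAL → ∀ (G : Type) (u : G → G → ℤ), Nonempty G → (∀ g, u g g = 0) → NULL u →
  ∃ g : C(ℝ, Rl (Cv u Set.univ)), (∀ t, g (t + 1) = rmap (sh u 1) (g t)) ∧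
    ∀ (A : Type) [TopologicalSpace A] [CompactSpace A] (r : C(A, ℝ)), FT u (g.comp r)

/-- MAIN -/
def S_MAIN : Prop := S_REAL → S_TW → S_BDRY → S_INJ → S_SKEL → S_GLUE → S_EXT → S_FF → S_GG →
  ∀ (G : Type) (u : G → G → ℤ), Nonempty G → (∀ g, u g g = 0) → NULL u →
  Nonempty (ContinuousMap.HomotopyEquiv (Rl (Eu u)) (AddCircle (1 : ℝ)))

/-! ### the Heisenberg group -/

/-- the pairing -/
def pr (p q : ℕ →₀ ℤ) : ℤ := p.sum fun i x => x * q i

/-- `V` -/
abbrev V : Type := (ℕ →₀ ℤ) × (ℕ →₀ ℤ)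

/-- the symplectic form -/
def om (a b : V) : ℤ := pr a.1 b.2 - pr b.1 a.2

theorem pr_add_left (p p' q : ℕ →₀ ℤ) : pr (p + p') q = pr p q + pr p' q := by
  unfold pr
  rw [Finsupp.sum_add_index'] <;> intros <;> ring

theorem pr_add_right (p q q' : ℕ →₀ ℤ) : pr p (q + q') = pr p q + pr p q' := by
  unfold pr
  rw [← Finsupp.sum_add]
  refine Finsupp.sum_congr fun i _ => ?_
  rw [Finsupp.add_apply]
  ring

theorem om_add_left (a b c : V) : om (a + b) c = om a c + om b c := by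
  simp only [om, Prod.fst_add, Prod.snd_add, pr_add_left, pr_add_right]
  ring

theorem om_add_right (a b c : V) : om a (b + c) = om a b + om a c := by
  simp only [om, Prod.fst_add, Prod.snd_add, pr_add_left, pr_add_right]
  ring

theorem om_self (a : V) : om a a = 0 := sub_self _

theorem om_symm (a b : V) : om b a = -om a b := by
  unfold om
  ring

/-- the integral Heisenberg group of infinite rank -/
@[ext] structure Heis : Type where
  a : V
  s : ℤ

namespace Heis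

noncomputable instance : Mul Heis := ⟨fun x y => ⟨x.a + y.a, x.s + y.s + om x.a y.a⟩⟩
noncomputable instance : One Heis := ⟨⟨0, 0⟩⟩
noncomputable instance : Inv Heis := ⟨fun x => ⟨-x.a, -x.s⟩⟩

theorem mul_def (x y : Heis) : x * y = ⟨x.a + y.a, x.s + y.s + om x.a y.a⟩ := rfl
theorem one_def : (1 : Heis) = ⟨0, 0⟩ := rfl
theorem inv_def (x : Heis) : x⁻¹ = ⟨-x.a, -x.s⟩ := rfl

theorem om_zero_left (a : V) : om 0 a = 0 := by
  have := om_add_left 0 0 a
  rw [add_zero] at this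
  omega

theorem om_neg_left (a b : V) : om (-a) b = -om a b := by
  have := om_add_left (-a) a b
  rw [neg_add_cancel, om_zero_left] at this
  omega

noncomputable instance : Group Heis := Group.ofLeftAxioms
  (fun x y z => by
    simp only [mul_def, om_add_left, om_add_right, Heis.mk.injEq]
    exact ⟨add_assoc _ _ _, by ring⟩)
  (fun x => by
    simp only [mul_def, one_def, om_zero_left]
    ext1 <;> simp)
  (fun x => by
    simp only [mul_def, one_def, inv_def, om_neg_left, om_self]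
    ext1 <;> simp)

end Heis

/-- `u` -/
def uH (x y : Heis) : ℤ := y.s - x.s - om x.a y.a

/-- the `(n+1)`-tuples contained in a left coset of an abelian subgroup -/
def IsCommTuple (G : Type) [Group G] (n : ℕ) (g : Fin (n + 1) → G) : Prop :=
  ∃ (x : G) (A : Subgroup G), (∀ a ∈ A, ∀ b ∈ A, a * b = b * a) ∧ ∀ i, x⁻¹ * g i ∈ A

/-- HEIS: `g i⁻¹ * g j = (a j - a i, u (g i) (g j))`, and two elements commute iff `ω = 0`. -/
def S_HEIS : Prop := (∀ x, uH x x = 0) ∧ ∀ (n : ℕ) (g : Fin (n + 1) → Heis),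
  IsCommTuple Heis n g ↔ (cocClass uH).mem n g

/-- CTR: the centre is `{(0, s)}`. -/
def S_CTR : Prop := ¬ (Subgroup.center Heis).FiniteIndex

/-- NULL for the Heisenberg group. Vertices `((a, s), m)`; two of them, `v, w`, are adjacent iff
`r_w - r_v = ω(a_v, a_w)`, `r = s - m`. For `v ∈ F` choose distinct `N v : ℕ` outside the supports of all
`a_w`, `w ∈ F`; `φ v = ((a_v + e_(N v), s), m)`, `e_N = (single N 1, 0)`;
`w = ((b, 0), 0)`, `b = (0, ∑_v (-r_v) single (N v) 1)`. `F' = F ∪ φ '' F ∪ {w}`. By CONT `inc` is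
homotopic to the map induced by `φ`, which is homotopic to the constant map `w`. -/
def S_NULL : Prop := S_REAL → S_CONT → NULL uH

end Pool.Agent.E8helper8.EC
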